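import Pool.Agent.Q255.L2.StmN
import Pool.Agent.Q124.L2.Vmc

/-!
# A law of information `x^δ` with larger moments (`S_MBL` of helper255)
-/

set_option autoImplicit false

namespace Pool.Agent.Q31.L2

open Filter Topology MeasureTheory Finset
open Pool.Agent.Q255.IC Pool.Agent.Q255.IR Pool.Agent.Q255.EP Pool.Agent.Q255.L2
open scoped ENNReal Interval

/-- the weight `n^(-1/2)` -/
noncomputable def wt (n : ℕ) : ℝ := Real.exp (-(Real.log n) / 2)

theorem wt_pos (n : ℕ) : 0 < wt n := Real.exp_pos _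

theorem wt_le (n : ℕ) : wt n ≤ 1 := by
  refine Real.exp_le_one_iff.2 ?_
  have := Real.log_natCast_nonneg n
  linarith

theorem term (n : ℕ) (hn : 1 ≤ n) (t : ℝ) :
    ((n : ℂ) ^ (-(1 / 2 : ℂ) - t * Complex.I)).re = wt n * Real.cos (t * Real.log n) ∧
      ((n : ℂ) ^ (-(1 / 2 : ℂ) - t * Complex.I)).im = -(wt n * Real.sin (t * Real.log n)) := by
  have h0 : (n : ℂ) ≠ 0 := by exact_mod_cast (by omega : n ≠ 0)
  rw [Complex.cpow_def_of_ne_zero h0, ← Complex.natCast_log]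
  have h1 : (Real.log n : ℂ) * (-(1 / 2 : ℂ) - t * Complex.I) =
      ((-(Real.log n) / 2 : ℝ) : ℂ) + ((-(t * Real.log n) : ℝ) : ℂ) * Complex.I := by
    push_cast; ring
  rw [h1]
  constructor
  · rw [Complex.exp_re]
    simp only [Complex.add_re, Complex.ofReal_re, Complex.mul_re, Complex.I_re, Complex.I_im,
      Complex.ofReal_im, Complex.add_im, Complex.mul_im, mul_zero, mul_one, sub_zero,
      add_zero, zero_add]
    rw [Real.cos_neg]
    rfl
  · rw [Complex.exp_im]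
    simp only [Complex.add_re, Complex.ofReal_re, Complex.mul_re, Complex.I_re, Complex.I_im,
      Complex.ofReal_im, Complex.add_im, Complex.mul_im, mul_zero, mul_one, sub_zero,
      add_zero, zero_add]
    rw [Real.sin_neg, mul_neg]
    rfl

theorem normsq (f : ℕ → ℝ) (N : ℕ) (t : ℝ) :
    ‖ZN f N t‖ ^ 2 = ∑ m ∈ Icc 1 N, ∑ n ∈ Icc 1 N, (f m * wt m * (f n * wt n)) *
      Real.cos (t * (Real.log m - Real.log n)) := by
  have hre : (ZN f N t).re = ∑ n ∈ Icc 1 N, f n * wt n * Real.cos (t * Real.log n) := by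
    unfold ZN
    rw [Complex.re_sum]
    refine Finset.sum_congr rfl fun n hn => ?_
    rw [Complex.re_ofReal_mul, (term n (Finset.mem_Icc.1 hn).1 t).1, mul_assoc]
  have him : (ZN f N t).im = -∑ n ∈ Icc 1 N, f n * wt n * Real.sin (t * Real.log n) := by
    unfold ZN
    rw [Complex.im_sum, ← Finset.sum_neg_distrib]
    refine Finset.sum_congr rfl fun n hn => ?_
    rw [Complex.im_ofReal_mul, (term n (Finset.mem_Icc.1 hn).1 t).2, mul_neg, mul_assoc]
  rw [← Complex.normSq_eq_norm_sq, Complex.normSq_apply, hre, him, neg_mul_neg,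
    Finset.sum_mul_sum, Finset.sum_mul_sum, ← Finset.sum_add_distrib]
  refine Finset.sum_congr rfl fun m _ => ?_
  rw [← Finset.sum_add_distrib]
  refine Finset.sum_congr rfl fun n _ => ?_
  rw [mul_sub, Real.cos_sub]
  ring

/-- the kernel -/
noncomputable def Cc (x : ℝ) : ℝ := ∫ a in (-1 / 2 : ℝ)..1 / 2, Real.cos (a * x)
noncomputable def Ss (x : ℝ) : ℝ := ∫ a in (-1 / 2 : ℝ)..1 / 2, Real.sin (a * x)
noncomputable def Kk (x : ℝ) : ℝ := Cc x ^ 2 + Ss x ^ 2

theorem Kk_nonneg (x : ℝ) : 0 ≤ Kk x := by unfold Kk; positivity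

theorem Kk_ge {x : ℝ} (hx : |x| ≤ 1) : 1 / 2 ≤ Kk x := by
  have h1 : (7 / 8 : ℝ) ≤ Cc x := by
    have h2 : ∫ _a in (-1 / 2 : ℝ)..1 / 2, (7 / 8 : ℝ) ≤ Cc x := by
      refine intervalIntegral.integral_mono_on (by norm_num) (by simp) ?_ ?_
      · exact (by fun_prop : Continuous fun a : ℝ => Real.cos (a * x)).intervalIntegrable _ _
      · intro a ha
        have h3 := Real.one_sub_sq_div_two_le_cos (x := a * x)
        have h4 : (a * x) ^ 2 ≤ 1 / 4 := by
          rw [mul_pow, ← sq_abs x]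
          have h5 : a ^ 2 ≤ 1 / 4 := by nlinarith [ha.1, ha.2]
          have h6 : |x| ^ 2 ≤ 1 := by nlinarith [abs_nonneg x]
          nlinarith [sq_nonneg a, sq_nonneg |x|]
        linarith
    rw [intervalIntegral.integral_const, smul_eq_mul] at h2
    linarith
  unfold Kk
  nlinarith [sq_nonneg (Ss x)]

theorem dbl (x : ℝ) : ∫ b in (-1 / 2 : ℝ)..1 / 2, ∫ a in (-1 / 2 : ℝ)..1 / 2,
    Real.cos ((a - b) * x) = Kk x := by
  have h1 : ∀ b : ℝ, ∫ a in (-1 / 2 : ℝ)..1 / 2, Real.cos ((a - b) * x) =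
      Cc x * Real.cos (b * x) + Ss x * Real.sin (b * x) := by
    intro b
    have h2 : ∀ a : ℝ, Real.cos ((a - b) * x) =
        Real.cos (a * x) * Real.cos (b * x) + Real.sin (a * x) * Real.sin (b * x) := by
      intro a
      rw [sub_mul, Real.cos_sub]
    simp only [h2]
    rw [intervalIntegral.integral_add, intervalIntegral.integral_mul_const,
      intervalIntegral.integral_mul_const]
    · rfl
    · exact (by fun_prop : Continuous fun a : ℝ => Real.cos (a * x) * Real.cos (b * x)).intervalIntegrable _ _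
    · exact (by fun_prop : Continuous fun a : ℝ => Real.sin (a * x) * Real.sin (b * x)).intervalIntegrable _ _
  simp only [h1]
  rw [intervalIntegral.integral_add, intervalIntegral.integral_const_mul,
    intervalIntegral.integral_const_mul]
  · unfold Kk
    rw [pow_two, pow_two]
    rfl
  · exact (by fun_prop : Continuous fun b : ℝ => Cc x * Real.cos (b * x)).intervalIntegrable _ _
  · exact (by fun_prop : Continuous fun b : ℝ => Ss x * Real.sin (b * x)).intervalIntegrable _ _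

theorem cont (f : ℕ → ℝ) (N : ℕ) : Continuous fun t : ℝ => ‖ZN f N t‖ ^ 2 := by
  simp only [normsq]
  fun_prop

/-- the mean square dominates the double integral -/
theorem ge_dbl {g : ℝ → ℝ} (hg : Continuous g) (h0 : ∀ t, 0 ≤ g t) :
    ∫ b in (-1 / 2 : ℝ)..1 / 2, ∫ a in (-1 / 2 : ℝ)..1 / 2, g (a - b) ≤ ∫ t in (-1 : ℝ)..1, g t := by
  obtain ⟨I, hI⟩ : ∃ I : ℝ, I = ∫ t in (-1 : ℝ)..1, g t := ⟨_, rfl⟩
  rw [← hI]
  have h1 : ∀ b ∈ Set.Icc (-1 / 2 : ℝ) (1 / 2), ∫ a in (-1 / 2 : ℝ)..1 / 2, g (a - b) ≤ I := by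
    intro b hb
    rw [intervalIntegral.integral_comp_sub_right g b, hI]
    exact intervalIntegral.integral_mono_interval (by linarith [hb.2]) (by norm_num)
      (by linarith [hb.1]) (ae_of_all _ h0) (hg.intervalIntegrable _ _)
  have h2 : ∫ b in (-1 / 2 : ℝ)..1 / 2, ∫ a in (-1 / 2 : ℝ)..1 / 2, g (a - b) ≤
      ∫ _b in (-1 / 2 : ℝ)..1 / 2, I := by
    refine intervalIntegral.integral_mono_on (by norm_num) ?_ (by simp) h1
    refine Continuous.intervalIntegrable ?_ _ _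
    exact intervalIntegral.continuous_parametric_intervalIntegral_of_continuous' (by fun_prop) _ _
  refine h2.trans (le_of_eq ?_)
  rw [intervalIntegral.integral_const, smul_eq_mul]
  ring

/-- the mean square is at least the quadratic form -/
theorem sq_ge (f : ℕ → ℝ) (N : ℕ) :
    ∑ m ∈ Icc 1 N, ∑ n ∈ Icc 1 N, (f m * wt m * (f n * wt n)) * Kk (Real.log m - Real.log n) ≤
      ∫ t in (-1 : ℝ)..1, ‖ZN f N t‖ ^ 2 := by
  refine le_trans (le_of_eq ?_) (ge_dbl (cont f N) fun t => by positivity)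
  simp only [normsq]
  have h1 : ∀ b : ℝ, ∫ a in (-1 / 2 : ℝ)..1 / 2, ∑ m ∈ Icc 1 N, ∑ n ∈ Icc 1 N,
      (f m * wt m * (f n * wt n)) * Real.cos ((a - b) * (Real.log m - Real.log n)) =
      ∑ m ∈ Icc 1 N, ∑ n ∈ Icc 1 N, (f m * wt m * (f n * wt n)) *
        ∫ a in (-1 / 2 : ℝ)..1 / 2, Real.cos ((a - b) * (Real.log m - Real.log n)) := by
    intro b
    rw [intervalIntegral.integral_finsetSum fun m _ =>
      (by fun_prop : Continuous fun a : ℝ => ∑ n ∈ Icc 1 N,
        (f m * wt m * (f n * wt n)) * Real.cos ((a - b) * (Real.log m - Real.log n))).intervalIntegrable _ _]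
    refine Finset.sum_congr rfl fun m _ => ?_
    rw [intervalIntegral.integral_finsetSum fun n _ =>
      (by fun_prop : Continuous fun a : ℝ =>
        (f m * wt m * (f n * wt n)) * Real.cos ((a - b) * (Real.log m - Real.log n))).intervalIntegrable _ _]
    refine Finset.sum_congr rfl fun n _ => ?_
    rw [intervalIntegral.integral_const_mul]
  simp only [h1]
  have hc : ∀ x : ℝ, Continuous fun b : ℝ =>
      ∫ a in (-1 / 2 : ℝ)..1 / 2, Real.cos ((a - b) * x) := fun x =>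
    intervalIntegral.continuous_parametric_intervalIntegral_of_continuous' (by fun_prop) _ _
  rw [intervalIntegral.integral_finsetSum fun m _ => Continuous.intervalIntegrable
    (continuous_finsetSum _ fun n _ => (hc _).const_mul _) _ _]
  refine Finset.sum_congr rfl fun m _ => ?_
  rw [intervalIntegral.integral_finsetSum fun n _ => Continuous.intervalIntegrable
    ((hc _).const_mul _) _ _]
  refine Finset.sum_congr rfl fun n _ => ?_
  rw [intervalIntegral.integral_const_mul, dbl]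

theorem wt_rpow {n : ℕ} (hn : 1 ≤ n) : wt n = (n : ℝ) ^ (-(1 / 2) : ℝ) := by
  have h0 : (0 : ℝ) < n := by exact_mod_cast hn
  unfold wt
  rw [Real.rpow_def_of_pos h0]
  congr 1
  ring

/-- the expectation of the quadratic form -/
theorem exp_ge {δ : ℝ} (hδ1 : δ < 1) (hδ0 : 0 < δ) (ν : Measure (ℕ → Bool)) [IsProbabilityMeasure ν]
    (hE : ∀ m : ℕ, 1 ≤ m → (m : ℝ) ^ ((δ - 1) / 2) ≤ ∫ ω, cm ω m ∂ν) {N : ℕ} (hN : 1 ≤ N) :
    (N : ℝ) ^ δ / 8 ≤ ∑ m ∈ Icc 1 N, ∑ n ∈ Icc 1 N,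
      (∫ ω, cm ω (m * n) ∂ν) * (wt m * wt n * Kk (Real.log m - Real.log n)) := by
  classical
  have hNp : (0 : ℝ) < N := by exact_mod_cast hN
  set U : Finset ℕ := (Icc 1 N).filter fun m => N ≤ 2 * m with hU
  have hUc : (N : ℝ) / 2 ≤ (U.card : ℝ) := by
    have h1 : (Icc ((N + 1) / 2) N) ⊆ U := by
      intro m hm
      rw [hU, Finset.mem_filter, Finset.mem_Icc]
      rw [Finset.mem_Icc] at hm
      omega
    have h2 := Finset.card_le_card h1
    rw [Nat.card_Icc] at h2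
    have h3 : N ≤ 2 * U.card := by omega
    have h4 : (N : ℝ) ≤ 2 * U.card := by exact_mod_cast h3
    linarith
  have hnn : ∀ m ∈ Icc 1 N, ∀ n ∈ Icc 1 N, 0 ≤ (∫ ω, cm ω (m * n) ∂ν) *
      (wt m * wt n * Kk (Real.log m - Real.log n)) := by
    intro m hm n hn
    have h1 : 1 ≤ m * n := Nat.mul_pos (Finset.mem_Icc.1 hm).1 (Finset.mem_Icc.1 hn).1
    have h2 := hE (m * n) h1
    have h3 : (0 : ℝ) ≤ ((m * n : ℕ) : ℝ) ^ ((δ - 1) / 2) := by positivity
    have h4 := Kk_nonneg (Real.log m - Real.log n)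
    have h5 := wt_pos m
    have h6 := wt_pos n
    exact mul_nonneg (h3.trans h2) (by positivity)
  have hge : ∀ m ∈ U, ∀ n ∈ U, (N : ℝ) ^ (δ - 2) / 2 ≤ (∫ ω, cm ω (m * n) ∂ν) *
      (wt m * wt n * Kk (Real.log m - Real.log n)) := by
    intro m hm n hn
    rw [hU, Finset.mem_filter, Finset.mem_Icc] at hm hn
    have hm1 : (1 : ℝ) ≤ m := by exact_mod_cast hm.1.1
    have hn1 : (1 : ℝ) ≤ n := by exact_mod_cast hn.1.1
    have hmN : (m : ℝ) ≤ N := by exact_mod_cast hm.1.2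
    have hnN : (n : ℝ) ≤ N := by exact_mod_cast hn.1.2
    have hm2 : (N : ℝ) ≤ 2 * m := by exact_mod_cast hm.2
    have hn2 : (N : ℝ) ≤ 2 * n := by exact_mod_cast hn.2
    have hK : 1 / 2 ≤ Kk (Real.log m - Real.log n) := by
      refine Kk_ge ?_
      have hl2 : Real.log 2 ≤ 1 := by linarith [Real.log_two_lt_d9]
      have a1 : Real.log m ≤ Real.log N := Real.log_le_log (by linarith) hmN
      have a2 : Real.log n ≤ Real.log N := Real.log_le_log (by linarith) hnN
      have a3 : Real.log N ≤ Real.log 2 + Real.log m := by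
        rw [← Real.log_mul (by norm_num) (by positivity)]
        exact Real.log_le_log hNp hm2
      have a4 : Real.log N ≤ Real.log 2 + Real.log n := by
        rw [← Real.log_mul (by norm_num) (by positivity)]
        exact Real.log_le_log hNp hn2
      rw [abs_le]
      constructor <;> linarith
    have h1 : 1 ≤ m * n := Nat.mul_pos hm.1.1 hn.1.1
    have h2 := hE (m * n) h1
    have h3 : ((N : ℝ) * N) ^ ((δ - 1) / 2) ≤ ((m * n : ℕ) : ℝ) ^ ((δ - 1) / 2) := by
      refine Real.rpow_le_rpow_of_nonpos (by positivity) ?_ (by linarith)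
      push_cast
      exact mul_le_mul hmN hnN (by linarith) hNp.le
    have h4 : (N : ℝ) ^ (-(1 / 2) : ℝ) ≤ wt m := by
      rw [wt_rpow hm.1.1]
      exact Real.rpow_le_rpow_of_nonpos (by linarith) hmN (by norm_num)
    have h5 : (N : ℝ) ^ (-(1 / 2) : ℝ) ≤ wt n := by
      rw [wt_rpow hn.1.1]
      exact Real.rpow_le_rpow_of_nonpos (by linarith) hnN (by norm_num)
    have h6 : (N : ℝ) ^ (δ - 2) / 2 = ((N : ℝ) * N) ^ ((δ - 1) / 2) *
        ((N : ℝ) ^ (-(1 / 2) : ℝ) * (N : ℝ) ^ (-(1 / 2) : ℝ) * (1 / 2)) := by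
      rw [Real.mul_rpow hNp.le hNp.le, ← Real.rpow_add hNp, ← Real.rpow_add hNp, ← mul_assoc,
        ← Real.rpow_add hNp]
      have : (δ - 1) / 2 + (δ - 1) / 2 + (-(1 / 2) + -(1 / 2)) = δ - 2 := by ring
      rw [this]
      ring
    rw [h6]
    refine mul_le_mul (h3.trans h2) ?_ (by positivity)
      ((by positivity : (0 : ℝ) ≤ ((N : ℝ) * N) ^ ((δ - 1) / 2)).trans (h3.trans h2))
    refine mul_le_mul ?_ hK (by norm_num) (mul_pos (wt_pos m) (wt_pos n)).le
    exact mul_le_mul h4 h5 (by positivity) (wt_pos m).le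
  have hsub : U ⊆ Icc 1 N := Finset.filter_subset _ _
  calc (N : ℝ) ^ δ / 8 = (N : ℝ) / 2 * ((N : ℝ) / 2 * ((N : ℝ) ^ (δ - 2) / 2)) := by
        have : (N : ℝ) ^ δ = (N : ℝ) * N * (N : ℝ) ^ (δ - 2) := by
          rw [Real.rpow_sub hNp, Real.rpow_two]
          field_simp
        rw [this]; ring
    _ ≤ (U.card : ℝ) * ((U.card : ℝ) * ((N : ℝ) ^ (δ - 2) / 2)) := by
        refine mul_le_mul hUc (mul_le_mul_of_nonneg_right hUc (by positivity)) (by positivity)
          (by positivity)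
    _ = ∑ _m ∈ U, ∑ _n ∈ U, (N : ℝ) ^ (δ - 2) / 2 := by
        rw [Finset.sum_const, Finset.sum_const, nsmul_eq_mul, nsmul_eq_mul]
    _ ≤ ∑ m ∈ U, ∑ n ∈ U, (∫ ω, cm ω (m * n) ∂ν) *
          (wt m * wt n * Kk (Real.log m - Real.log n)) :=
        Finset.sum_le_sum fun m hm => Finset.sum_le_sum fun n hn => hge m hm n hn
    _ ≤ ∑ m ∈ U, ∑ n ∈ Icc 1 N, (∫ ω, cm ω (m * n) ∂ν) *
          (wt m * wt n * Kk (Real.log m - Real.log n)) :=
        Finset.sum_le_sum fun m hm => Finset.sum_le_sum_of_subset_of_nonneg hsub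
          fun n hn _ => hnn m (hsub hm) n hn
    _ ≤ _ := Finset.sum_le_sum_of_subset_of_nonneg hsub
          fun m hm _ => Finset.sum_nonneg fun n hn => hnn m hm n hn

theorem tangent {k : ℕ} (hk : 1 ≤ k) {A u : ℝ} (hA : 0 ≤ A) (hu : 0 ≤ u) :
    (k : ℝ) * A ^ (k - 1) * u - ((k : ℝ) - 1) * A ^ k ≤ u ^ k := by
  obtain ⟨j, rfl⟩ : ∃ j, k = j + 1 := ⟨k - 1, by omega⟩
  clear hk
  simp only [Nat.add_sub_cancel]
  push_cast
  induction j with
  | zero => simp
  | succ j ih =>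
    have h1 : 0 ≤ (u - A) * (u ^ (j + 1) - A ^ (j + 1)) := by
      rcases le_total A u with h | h
      · exact mul_nonneg (by linarith) (by linarith [pow_le_pow_left₀ hA h (j + 1)])
      · exact mul_nonneg_of_nonpos_of_nonpos (by linarith)
          (by linarith [pow_le_pow_left₀ hu h (j + 1)])
    push_cast
    have h5 := mul_le_mul_of_nonneg_right ih hA
    rw [pow_succ A (j + 1), pow_succ u (j + 1)]
    rw [pow_succ A j] at h1 h5 ⊢
    generalize A ^ j = P at h1 h5 ⊢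
    generalize u ^ (j + 1) = U at h1 h5 ⊢
    nlinarith [h1, h5]

theorem meas (N k : ℕ) : StronglyMeasurable fun ω : ℕ → Bool =>
    ∫ t in (-1 : ℝ)..1, ‖ZN (cm ω) N t‖ ^ (2 * k) := by
  have h1 : ∀ ω : ℕ → Bool, ∫ t in (-1 : ℝ)..1, ‖ZN (cm ω) N t‖ ^ (2 * k) =
      ∫ t in Set.Ioc (-1 : ℝ) 1, ‖ZN (cm ω) N t‖ ^ (2 * k) := fun ω =>
    intervalIntegral.integral_of_le (by norm_num)
  simp only [h1]
  have h2 : StronglyMeasurable fun x : (ℕ → Bool) × ℝ => ‖ZN (cm x.1) N x.2‖ ^ (2 * k) := by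
    refine Measurable.stronglyMeasurable ?_
    simp only [pow_mul, normsq]
    refine Measurable.pow_const ?_ _
    refine Finset.measurable_sum _ fun m _ => Finset.measurable_sum _ fun n _ => ?_
    have hm : ∀ m : ℕ, Measurable fun x : (ℕ → Bool) × ℝ => cm x.1 m := fun m =>
      (Pool.Agent.Q124.L2.cm_meas m).comp measurable_fst
    refine Measurable.mul ?_ ?_
    · exact ((hm m).mul_const _).mul ((hm n).mul_const _)
    · exact Real.measurable_cos.comp (measurable_snd.mul_const _)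
  exact h2.integral_prod_right'

theorem ZN_le (ω : ℕ → Bool) (N : ℕ) (t : ℝ) : ‖ZN (cm ω) N t‖ ≤ N := by
  unfold ZN
  refine (norm_sum_le _ _).trans ?_
  calc ∑ n ∈ Icc 1 N, ‖(cm ω n : ℂ) * (n : ℂ) ^ (-(1 / 2 : ℂ) - t * Complex.I)‖
      ≤ ∑ _n ∈ Icc 1 N, (1 : ℝ) := by
        refine Finset.sum_le_sum fun n hn => ?_
        have hn1 := (Finset.mem_Icc.1 hn).1
        have hpos : (0 : ℝ) < n := by exact_mod_cast hn1
        rw [norm_mul, Complex.norm_real, Real.norm_eq_abs, Pool.Agent.Q13.EP.abs_cm, one_mul,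
          Complex.norm_natCast_cpow_of_pos hn1]
        refine Real.rpow_le_one_of_one_le_of_nonpos (by exact_mod_cast hn1) ?_
        simp
    _ = N := by simp

theorem mbl : S_MBL := by
  intro δ hδ0 hδ1
  obtain ⟨β, hβ⟩ : ∃ β : ℝ, β = (δ - 1) / 2 := ⟨_, rfl⟩
  have hβ0 : β ≤ 0 := by rw [hβ]; linarith
  obtain ⟨ν, hν, hD, hE⟩ := Pool.Agent.Q96.EP.lawe (fun k => (pr k : ℝ) ^ β) (fun k => by
    have h1 : (1 : ℝ) ≤ pr k := by exact_mod_cast (pr_prime k).one_lt.le
    rw [abs_of_nonneg (by positivity)]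
    exact Real.rpow_le_one_of_one_le_of_nonpos h1 hβ0)
  refine ⟨ν, hν, ⟨δ⁻¹, fun x _ => ?_⟩, fun k hk => ⟨2 / 16 ^ k, by positivity, fun N hN => ?_⟩⟩
  · refine (hD _).trans ?_
    have h1 := sum_pr_le hδ0 hδ1.le x
    simp only [neg_sq] at h1
    rw [hβ]
    exact h1
  · have hNp : (0 : ℝ) < N := by exact_mod_cast hN
    have hmean : ∀ m : ℕ, 1 ≤ m → (m : ℝ) ^ ((δ - 1) / 2) ≤ ∫ ω, cm ω m ∂ν := by
      intro m hm
      rw [← hβ]
      exact Pool.Agent.Q124.L2.mean_ge ν β hβ0 hE hm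
    obtain ⟨A, hA⟩ : ∃ A : ℝ, A = (N : ℝ) ^ δ / 16 := ⟨_, rfl⟩
    have hA0 : 0 ≤ A := by rw [hA]; positivity
    have hkey : ∀ ω : ℕ → Bool, (k : ℝ) * A ^ (k - 1) * (∑ m ∈ Icc 1 N, ∑ n ∈ Icc 1 N,
        cm ω (m * n) * (wt m * wt n * Kk (Real.log m - Real.log n))) - 2 * (((k : ℝ) - 1) * A ^ k) ≤
          ∫ t in (-1 : ℝ)..1, ‖ZN (cm ω) N t‖ ^ (2 * k) := by
      intro ω
      have h1 := sq_ge (cm ω) N
      have h2 : ∑ m ∈ Icc 1 N, ∑ n ∈ Icc 1 N, (cm ω m * wt m * (cm ω n * wt n)) *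
          Kk (Real.log m - Real.log n) = ∑ m ∈ Icc 1 N, ∑ n ∈ Icc 1 N,
            cm ω (m * n) * (wt m * wt n * Kk (Real.log m - Real.log n)) := by
        refine Finset.sum_congr rfl fun m hm => Finset.sum_congr rfl fun n hn => ?_
        rw [Pool.Agent.Q13.EP.cm_mul ω (by have := (Finset.mem_Icc.1 hm).1; omega)
          (by have := (Finset.mem_Icc.1 hn).1; omega)]
        ring
      rw [h2] at h1
      have h3 : ∫ t in (-1 : ℝ)..1, ((k : ℝ) * A ^ (k - 1) * ‖ZN (cm ω) N t‖ ^ 2 -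
          ((k : ℝ) - 1) * A ^ k) ≤ ∫ t in (-1 : ℝ)..1, ‖ZN (cm ω) N t‖ ^ (2 * k) := by
        refine intervalIntegral.integral_mono_on (by norm_num) ?_ ?_ ?_
        · exact (((cont (cm ω) N).const_mul _).sub continuous_const).intervalIntegrable _ _
        · simp only [pow_mul]
          exact ((cont (cm ω) N).pow k).intervalIntegrable _ _
        · intro t _
          rw [pow_mul]
          exact tangent hk hA0 (by positivity)
      rw [intervalIntegral.integral_sub, intervalIntegral.integral_const_mul,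
        intervalIntegral.integral_const, smul_eq_mul] at h3
      · have h4 : (k : ℝ) * A ^ (k - 1) * (∑ m ∈ Icc 1 N, ∑ n ∈ Icc 1 N,
            cm ω (m * n) * (wt m * wt n * Kk (Real.log m - Real.log n))) ≤
            (k : ℝ) * A ^ (k - 1) * ∫ t in (-1 : ℝ)..1, ‖ZN (cm ω) N t‖ ^ 2 :=
          mul_le_mul_of_nonneg_left h1 (by positivity)
        linarith
      · exact ((cont (cm ω) N).const_mul _).intervalIntegrable _ _
      · exact continuous_const.intervalIntegrable _ _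
    have hintL : Integrable (fun ω => ∑ m ∈ Icc 1 N, ∑ n ∈ Icc 1 N,
        cm ω (m * n) * (wt m * wt n * Kk (Real.log m - Real.log n))) ν :=
      integrable_finsetSum _ fun m _ => integrable_finsetSum _ fun n _ =>
        (Pool.Agent.Q124.L2.cm_int ν _).mul_const _
    have hE2 : (N : ℝ) ^ δ / 8 ≤ ∫ ω, (∑ m ∈ Icc 1 N, ∑ n ∈ Icc 1 N,
        cm ω (m * n) * (wt m * wt n * Kk (Real.log m - Real.log n))) ∂ν := by
      rw [integral_finsetSum _ fun m _ => integrable_finsetSum _ fun n _ =>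
        (Pool.Agent.Q124.L2.cm_int ν _).mul_const _]
      refine (exp_ge hδ1 hδ0 ν hmean hN).trans (le_of_eq ?_)
      refine Finset.sum_congr rfl fun m _ => ?_
      rw [integral_finsetSum _ fun n _ => (Pool.Agent.Q124.L2.cm_int ν _).mul_const _]
      refine Finset.sum_congr rfl fun n _ => ?_
      rw [integral_mul_const]
    have hintI : Integrable (fun ω => ∫ t in (-1 : ℝ)..1, ‖ZN (cm ω) N t‖ ^ (2 * k)) ν := by
      refine Integrable.of_bound (meas N k).aestronglyMeasurable ((N : ℝ) ^ (2 * k) * 2)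
        (ae_of_all _ fun ω => ?_)
      have h1 := intervalIntegral.norm_integral_le_of_norm_le_const (a := (-1 : ℝ)) (b := 1)
        (f := fun t => ‖ZN (cm ω) N t‖ ^ (2 * k)) (C := (N : ℝ) ^ (2 * k)) (fun t _ => by
          rw [norm_pow, norm_norm]
          exact pow_le_pow_left₀ (norm_nonneg _) (ZN_le ω N t) _)
      refine h1.trans (le_of_eq ?_)
      norm_num
    have hfin : ∫ ω, ((k : ℝ) * A ^ (k - 1) * (∑ m ∈ Icc 1 N, ∑ n ∈ Icc 1 N,
        cm ω (m * n) * (wt m * wt n * Kk (Real.log m - Real.log n))) -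
          2 * (((k : ℝ) - 1) * A ^ k)) ∂ν ≤
        ∫ ω, (∫ t in (-1 : ℝ)..1, ‖ZN (cm ω) N t‖ ^ (2 * k)) ∂ν :=
      integral_mono ((hintL.const_mul _).sub (integrable_const _)) hintI hkey
    rw [integral_sub (hintL.const_mul _) (integrable_const _), integral_const_mul,
      integral_const, smul_eq_mul] at hfin
    simp only [probReal_univ, one_mul] at hfin
    have h5 : (k : ℝ) * A ^ (k - 1) * ((N : ℝ) ^ δ / 8) ≤ (k : ℝ) * A ^ (k - 1) *
        ∫ ω, (∑ m ∈ Icc 1 N, ∑ n ∈ Icc 1 N,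
          cm ω (m * n) * (wt m * wt n * Kk (Real.log m - Real.log n))) ∂ν :=
      mul_le_mul_of_nonneg_left hE2 (by positivity)
    have h6 : A ^ (k - 1) * A = A ^ k := by
      rw [← pow_succ, Nat.sub_add_cancel hk]
    have h7 : (N : ℝ) ^ δ / 8 = 2 * A := by rw [hA]; ring
    have h8 : 2 / 16 ^ k * (N : ℝ) ^ (k * δ) = 2 * A ^ k := by
      rw [hA, div_pow, ← Real.rpow_natCast ((N : ℝ) ^ δ) k, ← Real.rpow_mul hNp.le,
        mul_comm δ (k : ℝ)]
      ring
    rw [h8]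
    rw [h7] at h5
    nlinarith [h5, hfin, h6]

end Pool.Agent.Q31.L2
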